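import Pool.Agent.Lib.H98P.B0

/-!
# H24B, chunk B1: bipartite chains

`cross` is a relation on the edges `α × β`. If for all nonempty `A`, `B` the complex of plane subsets
of `A ×ˢ B` is acyclic mod 2 (hypothesis `Acyc`), there are chains `c A B` of plane sets with
`|A| + |B| - 1` elements whose boundary is `∑ c (A - a) B + ∑ c A (B - b)`, the product star if one
side has one element.
-/

set_option autoImplicit false

namespace H24B

open Finset H98P

variable {α β : Type*} [Fintype α] [Fintype β] [DecidableEq α] [DecidableEq β]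

/-- The complex of plane subsets of `A ×ˢ B` is acyclic mod 2, for all nonempty `A`, `B`. -/
def Acyc (cross : α × β → α × β → Prop) : Prop :=
  ∀ (A : Finset α) (B : Finset β), A.Nonempty → B.Nonempty → ∀ z : Finset (α × β) → ZMod 2,
    (∀ σ, z σ ≠ 0 → σ ⊆ A ×ˢ B ∧ Plane cross σ) → (∀ ρ, bd z ρ = 0) →
    ∃ c : Finset (α × β) → ZMod 2, (∀ σ, c σ ≠ 0 → σ ⊆ A ×ˢ B ∧ Plane cross σ) ∧
      ∀ ρ, bd c ρ = z ρ

/-- The support property of the chains. -/
def Supp (cross : α × β → α × β → Prop) (c : Finset α → Finset β → Finset (α × β) → ZMod 2) : Prop :=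
  ∀ A B σ, c A B σ ≠ 0 → A.Nonempty ∧ B.Nonempty ∧ σ ⊆ A ×ˢ B ∧ Plane cross σ ∧
    σ.card + 1 = A.card + B.card

/-- The values of the chains if one side has one element. -/
def One (c : Finset α → Finset β → Finset (α × β) → ZMod 2) : Prop :=
  ∀ A B, A.Nonempty → B.Nonempty → (A.card = 1 ∨ B.card = 1) →
    ∀ σ, c A B σ = if σ = A ×ˢ B then 1 else 0

/-- The right side of the recursion. -/
def rhs (c : Finset α → Finset β → Finset (α × β) → ZMod 2) (A : Finset α) (B : Finset β)
    (ρ : Finset (α × β)) : ZMod 2 :=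
  ∑ a ∈ A, c (A.erase a) B ρ + ∑ b ∈ B, c A (B.erase b) ρ

/-- The boundary of one simplex. -/
theorem bd_ind {E : Type*} [Fintype E] [DecidableEq E] (τ ρ : Finset E) :
    bd (fun σ => if σ = τ then (1 : ZMod 2) else 0) ρ = ∑ e ∈ τ, if ρ = τ.erase e then 1 else 0 := by
  simp only [bd]
  have h1 : ∀ e ∈ ρᶜ, (if insert e ρ = τ then (1 : ZMod 2) else 0) =
      if e ∈ τ ∧ ρ = τ.erase e then 1 else 0 := by
    intro e he
    have he' : e ∉ ρ := Finset.mem_compl.1 he
    refine if_congr ?_ rfl rfl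
    constructor
    · intro h
      rw [← h]
      exact ⟨Finset.mem_insert_self e ρ, (Finset.erase_insert he').symm⟩
    · rintro ⟨h2, h3⟩
      conv_lhs => rw [h3]
      exact Finset.insert_erase h2
  rw [Finset.sum_congr rfl h1]
  have h3 : ∑ e ∈ ρᶜ, (if e ∈ τ ∧ ρ = τ.erase e then (1 : ZMod 2) else 0) =
      ∑ e : E, if e ∈ τ ∧ ρ = τ.erase e then 1 else 0 := by
    refine Finset.sum_subset (Finset.subset_univ _) fun e _ he => ?_
    rw [if_neg]
    rintro ⟨_, h5⟩
    rw [Finset.mem_compl, not_not] at he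
    rw [h5] at he
    exact Finset.notMem_erase e _ he
  rw [h3]
  rw [← Finset.sum_subset (Finset.subset_univ τ) fun e _ he => by
    rw [if_neg]
    exact fun h => he h.1]
  exact Finset.sum_congr rfl fun e he => by simp [he]

omit [Fintype α] [Fintype β] in
private theorem prod_plane {cross : α × β → α × β → Prop}
    (hA : ∀ a b b', ¬ cross (a, b) (a, b')) (hB : ∀ a a' b, ¬ cross (a, b) (a', b))
    {A : Finset α} {B : Finset β} (h : A.card = 1 ∨ B.card = 1) : Plane cross (A ×ˢ B) := by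
  rintro ⟨a, b⟩ he ⟨a', b'⟩ hf
  rw [Finset.mem_product] at he hf
  rcases h with h | h
  · obtain ⟨x, rfl⟩ := Finset.card_eq_one.1 h
    have h1 := Finset.mem_singleton.1 he.1
    have h2 := Finset.mem_singleton.1 hf.1
    simp only at h1 h2
    rw [h1, h2]
    exact hA x b b'
  · obtain ⟨x, rfl⟩ := Finset.card_eq_one.1 h
    have h1 := Finset.mem_singleton.1 he.2
    have h2 := Finset.mem_singleton.1 hf.2
    simp only at h1 h2
    rw [h1, h2]
    exact hB a a' x

omit [Fintype α] [Fintype β] in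
private theorem prod_card {A : Finset α} {B : Finset β} (h : A.card = 1 ∨ B.card = 1) :
    (A ×ˢ B).card + 1 = A.card + B.card := by
  rw [Finset.card_product]
  rcases h with h | h
  · rw [h, one_mul, add_comm]
  · rw [h, mul_one]

/-- The recursion holds automatically if one side has one element. -/
theorem rel_one {cross : α × β → α × β → Prop}
    {c : Finset α → Finset β → Finset (α × β) → ZMod 2} (hs : Supp cross c) (ho : One c)
    {A : Finset α} {B : Finset β} (hA : A.Nonempty) (hB : B.Nonempty)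
    (h : A.card = 1 ∨ B.card = 1) (h3 : 3 ≤ A.card + B.card) (ρ : Finset (α × β)) :
    bd (c A B) ρ = rhs c A B ρ := by
  have h0 : c A B = fun σ => if σ = A ×ˢ B then (1 : ZMod 2) else 0 := by
    funext σ
    exact ho A B hA hB h σ
  rw [h0, bd_ind, rhs]
  rcases h with h | h
  · obtain ⟨x, rfl⟩ := Finset.card_eq_one.1 h
    have h1 : ∑ a ∈ ({x} : Finset α), c (({x} : Finset α).erase a) B ρ = 0 := by
      refine Finset.sum_eq_zero fun a ha => ?_
      by_contra hne
      obtain ⟨⟨y, hy⟩, _⟩ := hs _ _ _ hne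
      rw [Finset.mem_singleton] at ha
      rw [ha] at hy
      simp at hy
    rw [h1, zero_add, Finset.sum_product, Finset.sum_singleton]
    refine Finset.sum_congr rfl fun b hb => ?_
    have hB2 : 2 ≤ B.card := by
      rw [h] at h3
      omega
    have h4 : (B.erase b).Nonempty := by
      rw [← Finset.card_pos, Finset.card_erase_of_mem hb]
      omega
    rw [ho _ _ hA h4 (Or.inl h)]
    have h5 : ({x} ×ˢ B).erase (x, b) = ({x} : Finset α) ×ˢ B.erase b := by
      ext ⟨u, v⟩
      simp only [Finset.mem_erase, Finset.mem_product, Finset.mem_singleton, ne_eq, Prod.mk.injEq]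
      constructor
      · rintro ⟨h6, h7, h8⟩
        exact ⟨h7, fun h9 => h6 ⟨h7, h9⟩, h8⟩
      · rintro ⟨h6, h7, h8⟩
        exact ⟨fun h9 => h7 h9.2, h6, h8⟩
    rw [h5]
  · obtain ⟨x, rfl⟩ := Finset.card_eq_one.1 h
    have h1 : ∑ b ∈ ({x} : Finset β), c A (({x} : Finset β).erase b) ρ = 0 := by
      refine Finset.sum_eq_zero fun a ha => ?_
      by_contra hne
      obtain ⟨_, ⟨y, hy⟩, _⟩ := hs _ _ _ hne
      rw [Finset.mem_singleton] at ha
      rw [ha] at hy
      simp at hy
    rw [h1, add_zero, Finset.sum_product]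
    refine Finset.sum_congr rfl fun a ha => ?_
    rw [Finset.sum_singleton]
    have hA2 : 2 ≤ A.card := by
      rw [h] at h3
      omega
    have h4 : (A.erase a).Nonempty := by
      rw [← Finset.card_pos, Finset.card_erase_of_mem ha]
      omega
    rw [ho _ _ h4 hB (Or.inr h)]
    have h5 : (A ×ˢ {x}).erase (a, x) = A.erase a ×ˢ ({x} : Finset β) := by
      ext ⟨u, v⟩
      simp only [Finset.mem_erase, Finset.mem_product, Finset.mem_singleton, ne_eq, Prod.mk.injEq]
      constructor
      · rintro ⟨h6, h7, h8⟩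
        exact ⟨⟨fun h9 => h6 ⟨h9, h8⟩, h7⟩, h8⟩
      · rintro ⟨⟨h6, h7⟩, h8⟩
        exact ⟨fun h9 => h6 h9.1, h7, h8⟩
    rw [h5]

private theorem sym_zero {X : Type*} [DecidableEq X] {g : X → X → ZMod 2}
    (hg : ∀ u v, g u v = g v u) (W : Finset X) : ∑ u ∈ W, ∑ v ∈ W.erase u, g u v = 0 := by
  rw [Finset.sum_sigma']
  refine Finset.sum_involution (fun x _ => (⟨x.2, x.1⟩ : Σ _ : X, X)) ?_ ?_ ?_ ?_
  · rintro ⟨e, f⟩ hx
    simp only
    rw [hg f e]
    exact CharTwo.add_self_eq_zero _
  · rintro ⟨e, f⟩ hx _ hEq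
    simp only [Finset.mem_sigma, Finset.mem_erase] at hx
    have h1 : f = e := congrArg Sigma.fst hEq
    exact hx.2.1 h1
  · rintro ⟨e, f⟩ hx
    simp only [Finset.mem_sigma, Finset.mem_erase] at hx ⊢
    exact ⟨hx.2.2, fun h => hx.2.1 h.symm, hx.1⟩
  · rintro ⟨e, f⟩ hx
    rfl

/-- The right side is a cycle if both sides have at least two elements. -/
theorem rhs_bd {c : Finset α → Finset β → Finset (α × β) → ZMod 2} {A : Finset α} {B : Finset β}
    (h1 : ∀ a ∈ A, ∀ ρ, bd (c (A.erase a) B) ρ = rhs c (A.erase a) B ρ)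
    (h2 : ∀ b ∈ B, ∀ ρ, bd (c A (B.erase b)) ρ = rhs c A (B.erase b) ρ) (ρ : Finset (α × β)) :
    bd (rhs c A B) ρ = 0 := by
  have h0 : rhs c A B = fun ρ => ∑ a ∈ A, c (A.erase a) B ρ + ∑ b ∈ B, c A (B.erase b) ρ := rfl
  rw [h0, bd_add, bd_sum, bd_sum]
  rw [Finset.sum_congr rfl fun a ha => h1 a ha ρ, Finset.sum_congr rfl fun b hb => h2 b hb ρ]
  simp only [rhs]
  rw [Finset.sum_add_distrib, Finset.sum_add_distrib,
    sym_zero (g := fun u v => c ((A.erase u).erase v) B ρ)
      (fun u v => by rw [Finset.erase_right_comm]),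
    sym_zero (g := fun u v => c A ((B.erase u).erase v) ρ)
      (fun u v => by rw [Finset.erase_right_comm]), zero_add, add_zero, Finset.sum_comm]
  exact CharTwo.add_self_eq_zero _

omit [Fintype α] [Fintype β] in
private theorem rhs_supp {cross : α × β → α × β → Prop}
    {c : Finset α → Finset β → Finset (α × β) → ZMod 2} (hs : Supp cross c) (A : Finset α)
    (B : Finset β) (ρ : Finset (α × β)) (h : rhs c A B ρ ≠ 0) :
    ρ ⊆ A ×ˢ B ∧ Plane cross ρ ∧ ρ.card + 2 = A.card + B.card := by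
  unfold rhs at h
  by_cases h1 : ∑ a ∈ A, c (A.erase a) B ρ = 0
  · rw [h1, zero_add] at h
    obtain ⟨b, hb, hb2⟩ := Finset.exists_ne_zero_of_sum_ne_zero h
    obtain ⟨_, _, h3, h4, h5⟩ := hs _ _ _ hb2
    refine ⟨h3.trans (Finset.product_subset_product_right (Finset.erase_subset _ _)), h4, ?_⟩
    have h6 := Finset.card_erase_add_one hb
    omega
  · obtain ⟨a, ha, ha2⟩ := Finset.exists_ne_zero_of_sum_ne_zero h1
    obtain ⟨_, _, h3, h4, h5⟩ := hs _ _ _ ha2
    refine ⟨h3.trans (Finset.product_subset_product_left (Finset.erase_subset _ _)), h4, ?_⟩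
    have h6 := Finset.card_erase_add_one ha
    omega

/-- One step of the recursion: the filling of the right side. -/
private theorem step {cross : α × β → α × β → Prop} (hac : Acyc cross)
    {c : Finset α → Finset β → Finset (α × β) → ZMod 2} (hs : Supp cross c) (ho : One c) {m : ℕ}
    (hr : ∀ A B, 2 ≤ A.card → 2 ≤ B.card → A.card + B.card ≤ m → ∀ ρ, bd (c A B) ρ = rhs c A B ρ)
    (A : Finset α) (B : Finset β) (hA : 2 ≤ A.card) (hB : 2 ≤ B.card)
    (hm : A.card + B.card = m + 1) :
    ∃ d : Finset (α × β) → ZMod 2,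
      (∀ σ, d σ ≠ 0 → σ ⊆ A ×ˢ B ∧ Plane cross σ ∧ σ.card + 1 = A.card + B.card) ∧
      ∀ ρ, bd d ρ = rhs c A B ρ := by
  have hA0 : A.Nonempty := Finset.card_pos.1 (by omega)
  have hB0 : B.Nonempty := Finset.card_pos.1 (by omega)
  have hz : ∀ ρ, bd (rhs c A B) ρ = 0 := by
    intro ρ
    refine rhs_bd (fun a ha ρ' => ?_) (fun b hb ρ' => ?_) ρ
    · have h4 := Finset.card_erase_add_one ha
      have h5 : (A.erase a).Nonempty := Finset.card_pos.1 (by omega)
      by_cases h6 : (A.erase a).card = 1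
      · exact rel_one hs ho h5 hB0 (Or.inl h6) (by omega) ρ'
      · exact hr _ _ (by omega) hB (by omega) ρ'
    · have h4 := Finset.card_erase_add_one hb
      have h5 : (B.erase b).Nonempty := Finset.card_pos.1 (by omega)
      by_cases h6 : (B.erase b).card = 1
      · exact rel_one hs ho hA0 h5 (Or.inr h6) (by omega) ρ'
      · exact hr _ _ hA (by omega) (by omega) ρ'
  obtain ⟨d, hd1, hd2⟩ := hac A B hA0 hB0 (rhs c A B) (fun σ hσ => by
    obtain ⟨h5, h6, _⟩ := rhs_supp hs A B σ hσ
    exact ⟨h5, h6⟩) hz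
  refine ⟨fun σ => if σ.card = (m - 1) + 1 then d σ else 0, ?_, ?_⟩
  · intro σ hσ
    beta_reduce at hσ
    by_cases h5 : σ.card = (m - 1) + 1
    · rw [if_pos h5] at hσ
      obtain ⟨h6, h7⟩ := hd1 σ hσ
      exact ⟨h6, h7, by omega⟩
    · rw [if_neg h5] at hσ
      exact absurd rfl hσ
  · intro ρ
    rw [bd_card, hd2]
    by_cases h5 : ρ.card = m - 1
    · rw [if_pos h5]
    · rw [if_neg h5]
      by_contra h6
      obtain ⟨_, _, h7⟩ := rhs_supp hs A B ρ (fun h => h6 h.symm)
      omega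

/-- THE CHAINS. -/
theorem chains {cross : α × β → α × β → Prop}
    (hA : ∀ a b b', ¬ cross (a, b) (a, b')) (hB : ∀ a a' b, ¬ cross (a, b) (a', b))
    (hac : Acyc cross) :
    ∃ c : Finset α → Finset β → Finset (α × β) → ZMod 2, Supp cross c ∧ One c ∧
      ∀ A B, A.Nonempty → B.Nonempty → 3 ≤ A.card + B.card → ∀ ρ, bd (c A B) ρ = rhs c A B ρ := by
  classical
  have key : ∀ m : ℕ, 3 ≤ m → ∃ c : Finset α → Finset β → Finset (α × β) → ZMod 2,
      Supp cross c ∧ One c ∧ ∀ A B, 2 ≤ A.card → 2 ≤ B.card → A.card + B.card ≤ m →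
        ∀ ρ, bd (c A B) ρ = rhs c A B ρ := by
    intro m hm
    induction m, hm using Nat.le_induction with
    | base =>
      refine ⟨fun A B σ => if A.Nonempty ∧ B.Nonempty ∧ (A.card = 1 ∨ B.card = 1) ∧ σ = A ×ˢ B
        then 1 else 0, ?_, ?_, fun A B h1 h2 h3 => ?_⟩
      · intro A B σ h
        beta_reduce at h
        by_cases h1 : A.Nonempty ∧ B.Nonempty ∧ (A.card = 1 ∨ B.card = 1) ∧ σ = A ×ˢ B
        · obtain ⟨h2, h3, h4, h5⟩ := h1
          subst h5
          exact ⟨h2, h3, Finset.Subset.refl _, prod_plane hA hB h4, prod_card h4⟩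
        · rw [if_neg h1] at h
          exact absurd rfl h
      · intro A B h1 h2 h3 σ
        beta_reduce
        refine if_congr ?_ rfl rfl
        exact ⟨fun h => h.2.2.2, fun h => ⟨h1, h2, h3, h⟩⟩
      · omega
    | succ m hm ih =>
      obtain ⟨c, hs, ho, hr⟩ := ih
      have hex : ∀ A : Finset α, ∀ B : Finset β, ∃ d : Finset (α × β) → ZMod 2,
          2 ≤ A.card → 2 ≤ B.card → A.card + B.card = m + 1 →
          (∀ σ, d σ ≠ 0 → σ ⊆ A ×ˢ B ∧ Plane cross σ ∧ σ.card + 1 = A.card + B.card) ∧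
            ∀ ρ, bd d ρ = rhs c A B ρ := by
        intro A B
        by_cases h : 2 ≤ A.card ∧ 2 ≤ B.card ∧ A.card + B.card = m + 1
        · obtain ⟨d, hd⟩ := step hac hs ho hr A B h.1 h.2.1 h.2.2
          exact ⟨d, fun _ _ _ => hd⟩
        · exact ⟨fun _ => 0, fun h1 h2 h3 => absurd ⟨h1, h2, h3⟩ h⟩
      choose d hd using hex
      refine ⟨fun A B => if 2 ≤ A.card ∧ 2 ≤ B.card ∧ A.card + B.card = m + 1 then d A B
        else c A B, ?_, ?_, ?_⟩
      · intro A B σ hσ
        beta_reduce at hσ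
        by_cases h1 : 2 ≤ A.card ∧ 2 ≤ B.card ∧ A.card + B.card = m + 1
        · rw [if_pos h1] at hσ
          exact ⟨Finset.card_pos.1 (by omega), Finset.card_pos.1 (by omega),
            (hd A B h1.1 h1.2.1 h1.2.2).1 σ hσ⟩
        · rw [if_neg h1] at hσ
          exact hs A B σ hσ
      · intro A B h1 h2 h3 σ
        beta_reduce
        rw [if_neg (by omega)]
        exact ho A B h1 h2 h3 σ
      · intro A B h1 h2 h3 ρ
        have h4 : rhs (fun A B => if 2 ≤ A.card ∧ 2 ≤ B.card ∧ A.card + B.card = m + 1 then d A B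
            else c A B) A B ρ = rhs c A B ρ := by
          unfold rhs
          congr 1
          · refine Finset.sum_congr rfl fun a ha => ?_
            have h5 := Finset.card_erase_add_one ha
            beta_reduce
            rw [if_neg (by omega)]
          · refine Finset.sum_congr rfl fun b hb => ?_
            have h5 := Finset.card_erase_add_one hb
            beta_reduce
            rw [if_neg (by omega)]
        rw [h4]
        beta_reduce
        by_cases h5 : A.card + B.card = m + 1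
        · rw [if_pos ⟨h1, h2, h5⟩]
          exact (hd A B h1 h2 h5).2 ρ
        · rw [if_neg fun h => h5 h.2.2]
          exact hr A B h1 h2 (by omega) ρ
  obtain ⟨c, hs, ho, hr⟩ := key (Fintype.card α + Fintype.card β + 3) (by omega)
  refine ⟨c, hs, ho, fun A B h1 h2 h3 ρ => ?_⟩
  have hAc : A.card ≤ Fintype.card α := Finset.card_le_univ A
  have hBc : B.card ≤ Fintype.card β := Finset.card_le_univ B
  have hA1 := h1.card_pos
  have hB1 := h2.card_pos
  by_cases h4 : A.card = 1 ∨ B.card = 1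
  · exact rel_one hs ho h1 h2 h4 h3 ρ
  · exact hr A B (by omega) (by omega) (by omega) ρ

end H24B
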