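import Pool.Agent.Lib.H98P.Defs

/-!
# H24B, chunk B2: the doors lemma with local hypotheses

Adapted from `Lib/H98P/DO.lean` (helper98): the finite dimension of the space is replaced by the
existence of a nontrivial relation on `τ`, and genericity is only used for subsets of `τ`.
-/

set_option autoImplicit false

namespace H24B

open Finset H98P

variable {E M : Type*} [DecidableEq E] [AddCommGroup M] [Module ℝ M]

/-- two zero weights: impossible by genericity -/
private theorem do_two {a : E → M} {d : ℕ} {b : M} {τ : Finset E}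
    (hb : ∀ σ ⊆ τ, σ.card < d → ∀ w : E → ℝ, ∑ e ∈ σ, w e • a e ≠ b) (hτ : τ.card = d + 1)
    {w : E → ℝ} (hw : ∑ e ∈ τ, w e • a e = b) {x y : E} (hx : x ∈ τ) (hy : y ∈ τ) (hxy : x ≠ y)
    (h1 : w x = 0) (h2 : w y = 0) : False := by
  have hy' : y ∈ τ.erase x := mem_erase.2 ⟨hxy.symm, hy⟩
  have hc : ((τ.erase x).erase y).card < d := by
    rw [card_erase_of_mem hy', card_erase_of_mem hx, hτ]
    have : 0 < (τ.erase x).card := card_pos.2 ⟨y, hy'⟩
    rw [card_erase_of_mem hx, hτ] at this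
    omega
  refine hb _ ((erase_subset _ _).trans (erase_subset _ _)) hc w ?_
  rw [← hw, ← add_sum_erase _ _ hx, ← add_sum_erase _ _ hy', h1, h2, zero_smul, zero_smul, zero_add,
    zero_add]

/-- a relation on `τ` which vanishes at `e₀` vanishes -/
private theorem do_zero {a : E → M} {d : ℕ} {b : M} {τ : Finset E}
    (hb : ∀ σ ⊆ τ, σ.card < d → ∀ w : E → ℝ, ∑ e ∈ σ, w e • a e ≠ b) (hτ : τ.card = d + 1)
    {w : E → ℝ} (hw : ∑ e ∈ τ, w e • a e = b) {x : E} (hx : x ∈ τ) (h1 : w x = 0)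
    {μ : E → ℝ} (hμ : ∑ e ∈ τ, μ e • a e = 0) (h2 : μ x = 0) : ∀ y ∈ τ, μ y = 0 := by
  intro y hy
  by_contra h3
  have hxy : x ≠ y := by
    rintro rfl
    exact h3 h2
  refine do_two hb hτ (w := fun e => w e - w y / μ y * μ e) ?_ hx hy hxy ?_ ?_
  · simp only [sub_smul, sum_sub_distrib, mul_smul, ← smul_sum]
    rw [hw, hμ, smul_zero, sub_zero]
  · show w x - w y / μ y * μ x = 0
    rw [h1, h2, mul_zero, sub_zero]
  · show w y - w y / μ y * μ y = 0
    rw [div_mul_cancel₀ _ h3, sub_self]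

/-- DOORS. `φ (a e) > 0` for all `e ∈ τ`, `b` not a linear combination of fewer than `d` of the `a e`,
`e ∈ τ`, `τ` a set of `d + 1` elements with a nontrivial relation. Then the number of `e ∈ τ` with
`b ∈ cone (τ - e)` is even. -/
theorem doorsL (a : E → M) (φ : M →ₗ[ℝ] ℝ) {d : ℕ} (b : M) (τ : Finset E)
    (hb : ∀ σ ⊆ τ, σ.card < d → ∀ w : E → ℝ, ∑ e ∈ σ, w e • a e ≠ b)
    (hτ : τ.card = d + 1) (hrel : ∃ μ : E → ℝ, ∑ e ∈ τ, μ e • a e = 0 ∧ ∃ x ∈ τ, μ x ≠ 0)
    (hφ : ∀ e ∈ τ, 0 < φ (a e)) : ∑ e ∈ τ, door a d b (τ.erase e) = 0 := by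
  classical
  have hcard : ∀ e ∈ τ, (τ.erase e).card = d := by
    intro e he
    rw [card_erase_of_mem he, hτ]
    rfl
  have hsum : ∑ e ∈ τ, door a d b (τ.erase e) =
      ((τ.filter fun e => InCone a (τ.erase e) b).card : ZMod 2) := by
    rw [card_filter, Nat.cast_sum]
    refine sum_congr rfl fun e he => ?_
    unfold door
    by_cases h : InCone a (τ.erase e) b
    · rw [if_pos ⟨hcard e he, h⟩, if_pos h, Nat.cast_one]
    · rw [if_neg fun h' => h h'.2, if_neg h, Nat.cast_zero]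
  rw [hsum]
  rcases (τ.filter fun e => InCone a (τ.erase e) b).eq_empty_or_nonempty with h0 | ⟨e₀, he₀⟩
  · rw [h0, card_empty, Nat.cast_zero]
  rw [mem_filter] at he₀
  obtain ⟨he₀τ, v, hv0, hv⟩ := he₀
  -- weights on `τ`
  have hext : ∀ (x : E) (u : E → ℝ), x ∈ τ → (∀ e ∈ τ.erase x, 0 ≤ u e) →
      ∑ e ∈ τ.erase x, u e • a e = b → ∃ w : E → ℝ, w x = 0 ∧ (∀ e ∈ τ, 0 ≤ w e) ∧
        ∑ e ∈ τ, w e • a e = b := by
    intro x u hx h1 h2
    refine ⟨Function.update u x 0, Function.update_self _ _ _, fun e he => ?_, ?_⟩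
    · by_cases hex : e = x
      · rw [hex, Function.update_self]
      · rw [Function.update_of_ne hex]
        exact h1 e (mem_erase.2 ⟨hex, he⟩)
    · rw [← add_sum_erase _ _ hx, Function.update_self, zero_smul, zero_add, ← h2]
      refine sum_congr rfl fun e he => ?_
      rw [Function.update_of_ne (mem_erase.1 he).1]
  obtain ⟨w, hwe, hw0, hw⟩ := hext e₀ v he₀τ hv0 hv
  -- the relation
  obtain ⟨μ, hμ, x, hx, hμx⟩ := hrel
  have hμe : μ e₀ ≠ 0 := fun h => hμx (do_zero hb hτ hw he₀τ hwe hμ h x hx)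
  obtain ⟨l, hl, hle⟩ : ∃ l : E → ℝ, ∑ e ∈ τ, l e • a e = 0 ∧ l e₀ = 1 := by
    refine ⟨fun e => (μ e₀)⁻¹ * μ e, ?_, inv_mul_cancel₀ hμe⟩
    simp only [mul_smul, ← smul_sum]
    rw [hμ, smul_zero]
  -- all solutions
  have hall : ∀ w' : E → ℝ, ∑ e ∈ τ, w' e • a e = b → ∀ y ∈ τ, w' y = w y + w' e₀ * l y := by
    intro w' hw' y hy
    have h1 := do_zero hb hτ hw he₀τ hwe (μ := fun e => w' e - w e - w' e₀ * l e) ?_ ?_ y hy
    · have h2 : w' y - w y - w' e₀ * l y = 0 := h1
      linarith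
    · simp only [sub_smul, sum_sub_distrib, mul_smul, ← smul_sum]
      rw [hw, hw', hl, smul_zero, sub_self, sub_zero]
    · show w' e₀ - w e₀ - w' e₀ * l e₀ = 0
      rw [hwe, hle]
      ring
  -- a negative coordinate
  have hneg : (τ.filter fun e => l e < 0).Nonempty := by
    by_contra hne
    rw [not_nonempty_iff_eq_empty, filter_eq_empty_iff] at hne
    have h1 : ∑ e ∈ τ, l e * φ (a e) = 0 := by
      have h2 := congrArg φ hl
      rw [map_sum, map_zero] at h2
      rw [← h2]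
      refine sum_congr rfl fun e _ => ?_
      rw [map_smul, smul_eq_mul]
    have h3 : 0 < ∑ e ∈ τ, l e * φ (a e) := by
      refine sum_pos' (fun e he => mul_nonneg (not_lt.1 (hne he)) (hφ e he).le) ⟨e₀, he₀τ, ?_⟩
      rw [hle, one_mul]
      exact hφ e₀ he₀τ
    linarith
  obtain ⟨e₁, he₁, hmin⟩ := exists_min_image _ (fun e => w e / (-l e)) hneg
  rw [mem_filter] at he₁
  obtain ⟨he₁τ, hl1⟩ := he₁
  have hne : e₁ ≠ e₀ := by
    rintro rfl
    rw [hle] at hl1
    linarith
  have hwpos : ∀ e ∈ τ, e ≠ e₀ → 0 < w e := by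
    intro e he hee
    refine lt_of_le_of_ne (hw0 e he) fun h => ?_
    exact do_two hb hτ hw he₀τ he hee.symm hwe h.symm
  have ht1 : w e₁ + w e₁ / (-l e₁) * l e₁ = 0 := by
    have : l e₁ ≠ 0 := hl1.ne
    field_simp
    ring
  have ht0 : 0 < w e₁ / (-l e₁) := div_pos (hwpos e₁ he₁τ hne) (by linarith)
  have hD : (τ.filter fun e => InCone a (τ.erase e) b) = {e₀, e₁} := by
    ext e
    rw [mem_filter, mem_insert, mem_singleton]
    constructor
    · rintro ⟨he, u, hu0, hu⟩
      by_contra hcon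
      push Not at hcon
      obtain ⟨hn0, hn1⟩ := hcon
      obtain ⟨w', hw'e, hw'0, hw'⟩ := hext e u he hu0 hu
      have h1 := hall w' hw' e he
      have h2 := hall w' hw' e₁ he₁τ
      have h3 := hwpos e he hn0
      have h4 := hw'0 e₀ he₀τ
      have h5 := hw'0 e₁ he₁τ
      rw [hw'e] at h1
      have hle0 : l e < 0 := by
        by_contra hge
        push Not at hge
        have := mul_nonneg h4 hge
        linarith
      have h6 := hmin e (mem_filter.2 ⟨he, hle0⟩)
      have h7 : w e / (-l e) = w' e₀ := by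
        rw [div_eq_iff (by linarith)]
        linarith
      have h8 : w' e₀ ≤ w e₁ / (-l e₁) := by
        rw [le_div_iff₀ (by linarith)]
        linarith
      have h9 : w' e₀ = w e₁ / (-l e₁) := by
        have h6' : w e₁ / (-l e₁) ≤ w e / (-l e) := h6
        rw [h7] at h6'
        exact le_antisymm h8 h6'
      rw [h9, ht1] at h2
      exact do_two hb hτ hw' he he₁τ hn1 hw'e h2
    · rintro (rfl | rfl)
      · exact ⟨he₀τ, v, hv0, hv⟩
      · refine ⟨he₁τ, fun y => w y + w e / (-l e) * l y, fun y hy => ?_, ?_⟩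
        · have hy' := (mem_erase.1 hy).2
          show 0 ≤ w y + w e / (-l e) * l y
          rcases le_or_gt 0 (l y) with hly | hly
          · have := mul_nonneg ht0.le hly
            have := hw0 y hy'
            linarith
          · have h6 : w e / (-l e) ≤ w y / (-l y) := hmin y (mem_filter.2 ⟨hy', hly⟩)
            rw [le_div_iff₀ (by linarith)] at h6
            linarith
        · have h1 : ∑ y ∈ τ, (w y + w e / (-l e) * l y) • a y = b := by
            simp only [add_smul, sum_add_distrib, mul_smul, ← smul_sum]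
            rw [hw, hl, smul_zero, add_zero]
          rw [← add_sum_erase _ _ he₁τ, ht1, zero_smul, zero_add] at h1
          exact h1
  rw [hD, card_pair hne.symm]
  rfl

end H24B
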