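import Pool.Agent.Lib.H24B.B1
import Pool.Agent.Lib.H24B.B2

/-!
# H24B, chunk B3: degree vectors of bipartite edges
-/

set_option autoImplicit false

namespace H24B

open Finset H98P

variable {α β : Type*} [DecidableEq α] [DecidableEq β]

/-- The degree vector of the edge `e = (a, b)`. -/
def vec (e : α × β) : α ⊕ β → ℝ :=
  Sum.elim (fun a => if a = e.1 then 1 else 0) (fun b => if b = e.2 then 1 else 0)

theorem vec_inl (e : α × β) (a : α) : vec e (Sum.inl a) = if a = e.1 then 1 else 0 := rfl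

theorem vec_inr (e : α × β) (b : β) : vec e (Sum.inr b) = if b = e.2 then 1 else 0 := rfl

theorem comb_apply (σ : Finset (α × β)) (w : α × β → ℝ) (v : α ⊕ β) :
    (∑ e ∈ σ, w e • vec e) v = ∑ e ∈ σ, w e * vec e v := by
  rw [Finset.sum_apply]
  rfl

theorem sum_left {A : Finset α} {B : Finset β} {σ : Finset (α × β)} (h : σ ⊆ A ×ˢ B)
    (w : α × β → ℝ) : ∑ a ∈ A, ∑ e ∈ σ, w e * vec e (Sum.inl a) = ∑ e ∈ σ, w e := by
  rw [Finset.sum_comm]
  refine Finset.sum_congr rfl fun e he => ?_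
  have h1 := (Finset.mem_product.1 (h he)).1
  rw [← Finset.mul_sum]
  simp only [vec_inl]
  rw [Finset.sum_ite_eq' A e.1, if_pos h1, mul_one]

theorem sum_right {A : Finset α} {B : Finset β} {σ : Finset (α × β)} (h : σ ⊆ A ×ˢ B)
    (w : α × β → ℝ) : ∑ b ∈ B, ∑ e ∈ σ, w e * vec e (Sum.inr b) = ∑ e ∈ σ, w e := by
  rw [Finset.sum_comm]
  refine Finset.sum_congr rfl fun e he => ?_
  have h1 := (Finset.mem_product.1 (h he)).2
  rw [← Finset.mul_sum]
  simp only [vec_inr]
  rw [Finset.sum_ite_eq' B e.2, if_pos h1, mul_one]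

theorem comb_left_zero {A : Finset α} {B : Finset β} {σ : Finset (α × β)} (h : σ ⊆ A ×ˢ B)
    (w : α × β → ℝ) {a : α} (ha : a ∉ A) : ∑ e ∈ σ, w e * vec e (Sum.inl a) = 0 := by
  refine Finset.sum_eq_zero fun e he => ?_
  rw [vec_inl, if_neg, mul_zero]
  rintro rfl
  exact ha (Finset.mem_product.1 (h he)).1

theorem comb_right_zero {A : Finset α} {B : Finset β} {σ : Finset (α × β)} (h : σ ⊆ A ×ˢ B)
    (w : α × β → ℝ) {b : β} (hb : b ∉ B) : ∑ e ∈ σ, w e * vec e (Sum.inr b) = 0 := by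
  refine Finset.sum_eq_zero fun e he => ?_
  rw [vec_inr, if_neg, mul_zero]
  rintro rfl
  exact hb (Finset.mem_product.1 (h he)).2

/-- Any `|A| + |B|` edges in `A ×ˢ B` have linearly dependent degree vectors. -/
theorem rel {A : Finset α} {B : Finset β} (hB : B.Nonempty) {τ : Finset (α × β)}
    (hτ : τ ⊆ A ×ˢ B) (hc : A.card + B.card ≤ τ.card) :
    ∃ μ : α × β → ℝ, ∑ e ∈ τ, μ e • vec e = 0 ∧ ∃ x ∈ τ, μ x ≠ 0 := by
  obtain ⟨b1, hb1⟩ := hB
  obtain ⟨K, hK⟩ : ∃ K : Finset (α ⊕ β), K = A.disjSum (B.erase b1) := ⟨_, rfl⟩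
  have hKc : K.card < τ.card := by
    rw [hK, Finset.card_disjSum]
    have h1 := Finset.card_erase_add_one hb1
    omega
  have h1 : ¬ LinearIndependent ℝ (fun e : τ => (fun v : K => vec e.1 v.1 : K → ℝ)) := by
    intro h
    have h2 := h.fintype_card_le_finrank
    rw [Fintype.card_coe, Module.finrank_fintype_fun_eq_card, Fintype.card_coe] at h2
    omega
  obtain ⟨g, hg, i, hi⟩ := Fintype.not_linearIndependent_iff.1 h1
  obtain ⟨μ, hμ⟩ : ∃ μ : α × β → ℝ, μ = fun e => if h : e ∈ τ then g ⟨e, h⟩ else 0 := ⟨_, rfl⟩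
  have hμg : ∀ e : τ, μ e.1 = g e := by
    intro e
    rw [hμ]
    show (if h : e.1 ∈ τ then g ⟨e.1, h⟩ else 0) = g e
    rw [dif_pos e.2]
  have hKz : ∀ v ∈ K, ∑ e ∈ τ, μ e * vec e v = 0 := by
    intro v hv
    have h2 := congrFun hg ⟨v, hv⟩
    rw [Finset.sum_apply] at h2
    rw [← Finset.sum_coe_sort]
    rw [Pi.zero_apply] at h2
    rw [← h2]
    refine Finset.sum_congr rfl fun e _ => ?_
    rw [hμg]
    rfl
  have hL : ∀ a ∈ A, ∑ e ∈ τ, μ e * vec e (Sum.inl a) = 0 := by
    intro a ha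
    refine hKz _ ?_
    rw [hK, Finset.inl_mem_disjSum]
    exact ha
  have hR : ∀ b ∈ B, b ≠ b1 → ∑ e ∈ τ, μ e * vec e (Sum.inr b) = 0 := by
    intro b hb hb2
    refine hKz _ ?_
    rw [hK, Finset.inr_mem_disjSum]
    exact Finset.mem_erase.2 ⟨hb2, hb⟩
  have hT : ∑ e ∈ τ, μ e = 0 := by
    rw [← sum_left hτ μ]
    exact Finset.sum_eq_zero hL
  refine ⟨μ, ?_, i.1, i.2, ?_⟩
  · funext v
    rw [comb_apply, Pi.zero_apply]
    rcases v with a | b
    · by_cases ha : a ∈ A
      · exact hL a ha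
      · exact comb_left_zero hτ μ ha
    · by_cases hb : b ∈ B
      · by_cases hb2 : b = b1
        · subst hb2
          have h3 := sum_right hτ μ
          rw [hT, ← Finset.add_sum_erase _ _ hb1] at h3
          have h4 : ∑ b' ∈ B.erase b, ∑ e ∈ τ, μ e * vec e (Sum.inr b') = 0 :=
            Finset.sum_eq_zero fun b' hb' => hR b' (Finset.mem_erase.1 hb').2 (Finset.mem_erase.1 hb').1
          rw [h4, add_zero] at h3
          exact h3
        · exact hR b hb hb2
      · exact comb_right_zero hτ μ hb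
  · rw [hμg]
    exact hi

/-- Positivity on `A` and `B`. -/
def Pos (A : Finset α) (B : Finset β) (x : α ⊕ β → ℝ) : Prop :=
  (∀ a ∈ A, 0 < x (Sum.inl a)) ∧ ∀ b ∈ B, 0 < x (Sum.inr b)

/-- `x` vanishes outside `A`, `B` and has equal sums on the two sides. -/
def Bal (A : Finset α) (B : Finset β) (x : α ⊕ β → ℝ) : Prop :=
  (∀ a, a ∉ A → x (Sum.inl a) = 0) ∧ (∀ b, b ∉ B → x (Sum.inr b) = 0) ∧
    ∑ a ∈ A, x (Sum.inl a) = ∑ b ∈ B, x (Sum.inr b)

/-- `x` is not a combination of fewer than `|A| + |B| - 1` edge vectors. -/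
def GenP (A : Finset α) (B : Finset β) (x : α ⊕ β → ℝ) : Prop :=
  ∀ σ ⊆ A ×ˢ B, σ.card + 1 < A.card + B.card → ∀ w : α × β → ℝ, ∑ e ∈ σ, w e • vec e ≠ x

/-- Adding an edge to a combination. -/
theorem add_edge {σ : Finset (α × β)} {e0 : α × β} (he : e0 ∉ σ) {w : α × β → ℝ} {t : ℝ}
    {x : α ⊕ β → ℝ} (h : ∑ e ∈ σ, w e • vec e = x - t • vec e0) :
    ∑ e ∈ insert e0 σ, (Function.update w e0 t) e • vec e = x := by
  rw [Finset.sum_insert he, Function.update_self]
  have h1 : ∑ e ∈ σ, (Function.update w e0 t) e • vec e = ∑ e ∈ σ, w e • vec e := by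
    refine Finset.sum_congr rfl fun e hee => ?_
    rw [Function.update_of_ne]
    rintro rfl
    exact he hee
  rw [h1, h, add_sub_cancel]

theorem bal_left {A : Finset α} {B : Finset β} {x : α ⊕ β → ℝ} (h : Bal A B x) {a : α} {b : β}
    (ha : a ∈ A) (hb : b ∈ B) : Bal (A.erase a) B (x - x (Sum.inl a) • vec (a, b)) := by
  obtain ⟨h1, h2, h3⟩ := h
  have hval : ∀ a', (x - x (Sum.inl a) • vec (a, b)) (Sum.inl a') =
      x (Sum.inl a') - x (Sum.inl a) * if a' = a then 1 else 0 := fun a' => rfl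
  have hval2 : ∀ b', (x - x (Sum.inl a) • vec (a, b)) (Sum.inr b') =
      x (Sum.inr b') - x (Sum.inl a) * if b' = b then 1 else 0 := fun b' => rfl
  refine ⟨fun a' ha' => ?_, fun b' hb' => ?_, ?_⟩
  · rw [hval]
    by_cases h4 : a' = a
    · rw [if_pos h4, h4, mul_one, sub_self]
    · rw [if_neg h4, mul_zero, sub_zero]
      exact h1 a' fun h5 => ha' (Finset.mem_erase.2 ⟨h4, h5⟩)
  · rw [hval2, if_neg, mul_zero, sub_zero]
    · exact h2 b' hb'
    · rintro rfl
      exact hb' hb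
  · simp only [hval, hval2]
    rw [Finset.sum_sub_distrib, Finset.sum_sub_distrib, ← Finset.mul_sum, ← Finset.mul_sum,
      Finset.sum_ite_eq', Finset.sum_ite_eq', if_neg (Finset.notMem_erase a A), if_pos hb, ← h3,
      ← Finset.add_sum_erase _ _ ha]
    ring

theorem bal_right {A : Finset α} {B : Finset β} {x : α ⊕ β → ℝ} (h : Bal A B x) {a : α} {b : β}
    (ha : a ∈ A) (hb : b ∈ B) : Bal A (B.erase b) (x - x (Sum.inr b) • vec (a, b)) := by
  obtain ⟨h1, h2, h3⟩ := h
  have hval : ∀ a', (x - x (Sum.inr b) • vec (a, b)) (Sum.inl a') =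
      x (Sum.inl a') - x (Sum.inr b) * if a' = a then 1 else 0 := fun a' => rfl
  have hval2 : ∀ b', (x - x (Sum.inr b) • vec (a, b)) (Sum.inr b') =
      x (Sum.inr b') - x (Sum.inr b) * if b' = b then 1 else 0 := fun b' => rfl
  refine ⟨fun a' ha' => ?_, fun b' hb' => ?_, ?_⟩
  · rw [hval, if_neg, mul_zero, sub_zero]
    · exact h1 a' ha'
    · rintro rfl
      exact ha' ha
  · rw [hval2]
    by_cases h4 : b' = b
    · rw [if_pos h4, h4, mul_one, sub_self]
    · rw [if_neg h4, mul_zero, sub_zero]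
      exact h2 b' fun h5 => hb' (Finset.mem_erase.2 ⟨h4, h5⟩)
  · simp only [hval, hval2]
    rw [Finset.sum_sub_distrib, Finset.sum_sub_distrib, ← Finset.mul_sum, ← Finset.mul_sum,
      Finset.sum_ite_eq', Finset.sum_ite_eq', if_neg (Finset.notMem_erase b B), if_pos ha, h3,
      ← Finset.add_sum_erase _ _ hb]
    ring

/-- A balanced vector is a combination of at most `|A| + |B| - 1` edge vectors. -/
theorem comb_bal (n : ℕ) : ∀ (A : Finset α) (B : Finset β), A.Nonempty → B.Nonempty →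
    A.card + B.card = n → ∀ x : α ⊕ β → ℝ, Bal A B x →
    ∃ σ ⊆ A ×ˢ B, σ.card + 1 ≤ A.card + B.card ∧ ∃ w : α × β → ℝ, ∑ e ∈ σ, w e • vec e = x := by
  induction n with
  | zero =>
    intro A B hA hB hn
    have := hA.card_pos
    omega
  | succ n ih =>
    intro A B hA hB hn x hx
    obtain ⟨a, ha⟩ := hA
    obtain ⟨b, hb⟩ := hB
    by_cases h2 : 2 ≤ A.card
    · have h3 := Finset.card_erase_add_one ha
      obtain ⟨σ, hσ, hc, w, hw⟩ := ih (A.erase a) B (Finset.card_pos.1 (by omega)) ⟨b, hb⟩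
        (by omega) _ (bal_left hx ha hb)
      have hn0 : (a, b) ∉ σ := fun h =>
        Finset.notMem_erase a A (Finset.mem_product.1 (hσ h)).1
      refine ⟨insert (a, b) σ, ?_, ?_, _, add_edge hn0 hw⟩
      · rw [Finset.insert_subset_iff]
        exact ⟨Finset.mem_product.2 ⟨ha, hb⟩,
          hσ.trans (Finset.product_subset_product_left (Finset.erase_subset _ _))⟩
      · rw [Finset.card_insert_of_notMem hn0]
        omega
    · by_cases h2' : 2 ≤ B.card
      · have h3 := Finset.card_erase_add_one hb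
        obtain ⟨σ, hσ, hc, w, hw⟩ := ih A (B.erase b) ⟨a, ha⟩ (Finset.card_pos.1 (by omega))
          (by omega) _ (bal_right hx ha hb)
        have hn0 : (a, b) ∉ σ := fun h =>
          Finset.notMem_erase b B (Finset.mem_product.1 (hσ h)).2
        refine ⟨insert (a, b) σ, ?_, ?_, _, add_edge hn0 hw⟩
        · rw [Finset.insert_subset_iff]
          exact ⟨Finset.mem_product.2 ⟨ha, hb⟩,
            hσ.trans (Finset.product_subset_product_right (Finset.erase_subset _ _))⟩
        · rw [Finset.card_insert_of_notMem hn0]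
          omega
      · have hA1 := Finset.card_pos.2 ⟨a, ha⟩
        have hB1 := Finset.card_pos.2 ⟨b, hb⟩
        obtain ⟨a', rfl⟩ := Finset.card_eq_one.1 (show A.card = 1 by omega)
        obtain ⟨b', rfl⟩ := Finset.card_eq_one.1 (show B.card = 1 by omega)
        rw [Finset.mem_singleton] at ha hb
        subst ha hb
        obtain ⟨h4, h5, h6⟩ := hx
        rw [Finset.sum_singleton, Finset.sum_singleton] at h6
        refine ⟨{(a, b)}, by simp, by simp, fun _ => x (Sum.inl a), ?_⟩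
        rw [Finset.sum_singleton]
        funext v
        rcases v with a' | b'
        · show x (Sum.inl a) * (if a' = a then 1 else 0) = x (Sum.inl a')
          by_cases h7 : a' = a
          · rw [if_pos h7, h7, mul_one]
          · rw [if_neg h7, mul_zero, h4 a' (by simpa using h7)]
        · show x (Sum.inl a) * (if b' = b then 1 else 0) = x (Sum.inr b')
          by_cases h7 : b' = b
          · rw [if_pos h7, h7, mul_one, h6]
          · rw [if_neg h7, mul_zero, h5 b' (by simpa using h7)]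

theorem gen_left {A : Finset α} {B : Finset β} {x : α ⊕ β → ℝ} (h : GenP A B x) {a : α} {b : β}
    (ha : a ∈ A) (hb : b ∈ B) : GenP (A.erase a) B (x - x (Sum.inl a) • vec (a, b)) := by
  intro σ hσ hc w hw
  have hn0 : (a, b) ∉ σ := fun h => Finset.notMem_erase a A (Finset.mem_product.1 (hσ h)).1
  refine h (insert (a, b) σ) ?_ ?_ _ (add_edge hn0 hw)
  · rw [Finset.insert_subset_iff]
    exact ⟨Finset.mem_product.2 ⟨ha, hb⟩,
      hσ.trans (Finset.product_subset_product_left (Finset.erase_subset _ _))⟩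
  · rw [Finset.card_insert_of_notMem hn0]
    have h3 := Finset.card_erase_add_one ha
    omega

theorem gen_right {A : Finset α} {B : Finset β} {x : α ⊕ β → ℝ} (h : GenP A B x) {a : α} {b : β}
    (ha : a ∈ A) (hb : b ∈ B) : GenP A (B.erase b) (x - x (Sum.inr b) • vec (a, b)) := by
  intro σ hσ hc w hw
  have hn0 : (a, b) ∉ σ := fun h => Finset.notMem_erase b B (Finset.mem_product.1 (hσ h)).2
  refine h (insert (a, b) σ) ?_ ?_ _ (add_edge hn0 hw)
  · rw [Finset.insert_subset_iff]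
    exact ⟨Finset.mem_product.2 ⟨ha, hb⟩,
      hσ.trans (Finset.product_subset_product_right (Finset.erase_subset _ _))⟩
  · rw [Finset.card_insert_of_notMem hn0]
    have h3 := Finset.card_erase_add_one hb
    omega

/-- Genericity excludes equal coordinates on the two sides. -/
theorem ne_of_gen {A : Finset α} {B : Finset β} {x : α ⊕ β → ℝ} (hx : Bal A B x) (h : GenP A B x)
    {a : α} {b : β} (ha : a ∈ A) (hb : b ∈ B) (hA : 2 ≤ A.card) (hB : 2 ≤ B.card) :
    x (Sum.inl a) ≠ x (Sum.inr b) := by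
  intro he
  have h3 := Finset.card_erase_add_one ha
  have h3' := Finset.card_erase_add_one hb
  obtain ⟨h1, h2, h4⟩ := bal_left hx ha hb
  have hz : (x - x (Sum.inl a) • vec (a, b)) (Sum.inr b) = 0 := by
    show x (Sum.inr b) - x (Sum.inl a) * (if b = b then 1 else 0) = 0
    rw [if_pos rfl, he, mul_one, sub_self]
  have hbal : Bal (A.erase a) (B.erase b) (x - x (Sum.inl a) • vec (a, b)) := by
    refine ⟨h1, fun b' hb' => ?_, ?_⟩
    · by_cases h5 : b' = b
      · rw [h5, hz]
      · exact h2 b' fun h6 => hb' (Finset.mem_erase.2 ⟨h5, h6⟩)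
    · rw [h4, ← Finset.add_sum_erase _ _ hb, hz, zero_add]
  obtain ⟨σ, hσ, hc, w, hw⟩ := comb_bal _ (A.erase a) (B.erase b) (Finset.card_pos.1 (by omega))
    (Finset.card_pos.1 (by omega)) rfl _ hbal
  have hn0 : (a, b) ∉ σ := fun h => Finset.notMem_erase a A (Finset.mem_product.1 (hσ h)).1
  refine h (insert (a, b) σ) ?_ ?_ _ (add_edge hn0 hw)
  · rw [Finset.insert_subset_iff]
    exact ⟨Finset.mem_product.2 ⟨ha, hb⟩,
      hσ.trans (Finset.product_subset_product (Finset.erase_subset _ _) (Finset.erase_subset _ _))⟩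
  · rw [Finset.card_insert_of_notMem hn0]
    omega

/-- A cone of edges avoiding `a` contains no vector with `x a ≠ 0`. -/
theorem not_cone_left {A : Finset α} {B : Finset β} {σ : Finset (α × β)} (h : σ ⊆ A ×ˢ B)
    {x : α ⊕ β → ℝ} {a : α} (ha : a ∉ A) (hx : x (Sum.inl a) ≠ 0) : ¬ InCone vec σ x := by
  rintro ⟨w, _, hw⟩
  apply hx
  rw [← hw, comb_apply]
  exact comb_left_zero h w ha

theorem not_cone_right {A : Finset α} {B : Finset β} {σ : Finset (α × β)} (h : σ ⊆ A ×ˢ B)
    {x : α ⊕ β → ℝ} {b : β} (hb : b ∉ B) (hx : x (Sum.inr b) ≠ 0) : ¬ InCone vec σ x := by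
  rintro ⟨w, _, hw⟩
  apply hx
  rw [← hw, comb_apply]
  exact comb_right_zero h w hb

/-- All coordinates of a vector in a cone are nonnegative. -/
theorem cone_nonneg {σ : Finset (α × β)} {x : α ⊕ β → ℝ} (h : InCone vec σ x) (v : α ⊕ β) :
    0 ≤ x v := by
  obtain ⟨w, hw0, hw⟩ := h
  rw [← hw, comb_apply]
  refine Finset.sum_nonneg fun e he => mul_nonneg (hw0 e he) ?_
  rcases v with a | b
  · rw [vec_inl]
    split_ifs <;> norm_num
  · rw [vec_inr]
    split_ifs <;> norm_num

theorem door_congr {k l : ℕ} {x y : α ⊕ β → ℝ} {σ ρ : Finset (α × β)}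
    (h : (σ.card = k ∧ InCone vec σ x) ↔ (ρ.card = l ∧ InCone vec ρ y)) :
    door vec k x σ = door vec l y ρ := by
  unfold door
  by_cases h1 : ρ.card = l ∧ InCone vec ρ y
  · rw [if_pos h1, if_pos (h.2 h1)]
  · rw [if_neg h1, if_neg fun h' => h1 (h.1 h')]

theorem door_zero {k : ℕ} {x : α ⊕ β → ℝ} {σ : Finset (α × β)} (h : ¬ InCone vec σ x) :
    door vec k x σ = 0 := by
  unfold door
  rw [if_neg fun h' => h h'.2]

/-- Removing the only edge at `a`. -/
theorem door_left {A : Finset α} {B : Finset β} {ρ : Finset (α × β)} {x : α ⊕ β → ℝ} {a : α} {b : β}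
    (h : ρ ⊆ A.erase a ×ˢ B) (hx : 0 ≤ x (Sum.inl a)) (k : ℕ) :
    door vec (k + 1) x (insert (a, b) ρ) = door vec k (x - x (Sum.inl a) • vec (a, b)) ρ := by
  have hn0 : (a, b) ∉ ρ := fun h' => Finset.notMem_erase a A (Finset.mem_product.1 (h h')).1
  refine door_congr ?_
  rw [Finset.card_insert_of_notMem hn0]
  refine and_congr (by omega) ⟨?_, ?_⟩
  · rintro ⟨w, hw0, hw⟩
    refine ⟨w, fun e he => hw0 e (Finset.mem_insert_of_mem he), ?_⟩
    rw [Finset.sum_insert hn0] at hw
    have h1 := congrFun hw (Sum.inl a)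
    rw [Pi.add_apply, comb_apply, comb_left_zero h w (Finset.notMem_erase a A), add_zero] at h1
    have h2 : w (a, b) = x (Sum.inl a) := by
      rw [← h1]
      show w (a, b) = w (a, b) * (if a = a then 1 else 0)
      rw [if_pos rfl, mul_one]
    rw [← h2, ← hw, add_sub_cancel_left]
  · rintro ⟨w, hw0, hw⟩
    refine ⟨_, fun e he => ?_, add_edge hn0 hw⟩
    by_cases h1 : e = (a, b)
    · rw [h1, Function.update_self]
      exact hx
    · rw [Function.update_of_ne h1]
      exact hw0 e ((Finset.mem_insert.1 he).resolve_left h1)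

/-- Removing the only edge at `b`. -/
theorem door_right {A : Finset α} {B : Finset β} {ρ : Finset (α × β)} {x : α ⊕ β → ℝ} {a : α} {b : β}
    (h : ρ ⊆ A ×ˢ B.erase b) (hx : 0 ≤ x (Sum.inr b)) (k : ℕ) :
    door vec (k + 1) x (insert (a, b) ρ) = door vec k (x - x (Sum.inr b) • vec (a, b)) ρ := by
  have hn0 : (a, b) ∉ ρ := fun h' => Finset.notMem_erase b B (Finset.mem_product.1 (h h')).2
  refine door_congr ?_
  rw [Finset.card_insert_of_notMem hn0]
  refine and_congr (by omega) ⟨?_, ?_⟩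
  · rintro ⟨w, hw0, hw⟩
    refine ⟨w, fun e he => hw0 e (Finset.mem_insert_of_mem he), ?_⟩
    rw [Finset.sum_insert hn0] at hw
    have h1 := congrFun hw (Sum.inr b)
    rw [Pi.add_apply, comb_apply, comb_right_zero h w (Finset.notMem_erase b B), add_zero] at h1
    have h2 : w (a, b) = x (Sum.inr b) := by
      rw [← h1]
      show w (a, b) = w (a, b) * (if b = b then 1 else 0)
      rw [if_pos rfl, mul_one]
    rw [← h2, ← hw, add_sub_cancel_left]
  · rintro ⟨w, hw0, hw⟩
    refine ⟨_, fun e he => ?_, add_edge hn0 hw⟩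
    by_cases h1 : e = (a, b)
    · rw [h1, Function.update_self]
      exact hx
    · rw [Function.update_of_ne h1]
      exact hw0 e ((Finset.mem_insert.1 he).resolve_left h1)

end H24B
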