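import Pool.Agent.Lib.H24B.B3

/-!
# H24B, chunk B4: the number of plane doors is odd
-/

set_option autoImplicit false

namespace H24B

open Finset H98P

variable {α β : Type*} [Fintype α] [Fintype β] [DecidableEq α] [DecidableEq β]

/-- The doors on the apex side: `e0` is added. -/
noncomputable def Bf (d : ℕ) (x : α ⊕ β → ℝ) (e0 : α × β) (ρ : Finset (α × β)) : ZMod 2 :=
  if e0 ∈ ρ then 0 else door vec d x (insert e0 ρ)

omit [Fintype β] in
/-- DOORS for a set of `|A| + |B| - 1` edges. -/
theorem doorsB {A : Finset α} {B : Finset β} {x : α ⊕ β → ℝ} (hg : GenP A B x)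
    {e0 : α × β} (he0 : e0 ∈ A ×ˢ B) {τ : Finset (α × β)} (hτ : τ ⊆ A ×ˢ B) {d : ℕ}
    (hd : d + 1 = A.card + B.card) (hc : τ.card = d) :
    ∑ e ∈ τ, Bf d x e0 (τ.erase e) = door vec d x τ := by
  by_cases h0 : e0 ∈ τ
  · rw [← Finset.add_sum_erase _ _ h0]
    have h1 : ∑ e ∈ τ.erase e0, Bf d x e0 (τ.erase e) = 0 := by
      refine Finset.sum_eq_zero fun e he => ?_
      unfold Bf
      rw [if_pos]
      exact Finset.mem_erase.2 ⟨fun h => (Finset.mem_erase.1 he).1 h.symm, h0⟩
    rw [h1, add_zero]
    unfold Bf
    rw [if_neg (Finset.notMem_erase e0 τ), Finset.insert_erase h0]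
  · obtain ⟨τ', hτ'⟩ : ∃ τ' : Finset (α × β), τ' = insert e0 τ := ⟨_, rfl⟩
    have hsub : τ' ⊆ A ×ˢ B := by
      rw [hτ', Finset.insert_subset_iff]
      exact ⟨he0, hτ⟩
    have hcard : τ'.card = d + 1 := by
      rw [hτ', Finset.card_insert_of_notMem h0, hc]
    have hB : B.Nonempty := ⟨e0.2, (Finset.mem_product.1 he0).2⟩
    have h1 : ∑ e ∈ τ', door vec d x (τ'.erase e) = 0 := by
      refine doorsL (vec (α := α) (β := β)) (∑ a : α, LinearMap.proj (Sum.inl a)) x τ' ?_ hcard ?_ ?_
      · intro σ hσ hσc w
        exact hg σ (hσ.trans hsub) (by omega) w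
      · exact rel hB hsub (by omega)
      · intro e _
        rw [LinearMap.sum_apply]
        simp only [LinearMap.proj_apply, vec_inl]
        rw [Finset.sum_ite_eq' Finset.univ e.1, if_pos (Finset.mem_univ _)]
        exact one_pos
    rw [hτ', Finset.sum_insert h0, Finset.erase_insert h0] at h1
    have h2 : ∑ e ∈ τ, door vec d x ((insert e0 τ).erase e) = ∑ e ∈ τ, Bf d x e0 (τ.erase e) := by
      refine Finset.sum_congr rfl fun e he => ?_
      have hne : e0 ≠ e := by
        rintro rfl
        exact h0 he
      unfold Bf
      rw [if_neg fun h => h0 (Finset.mem_erase.1 h).2, Finset.erase_insert_of_ne hne]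
    rw [h2] at h1
    exact (CharTwo.add_eq_zero.1 h1).symm

/-- THE COUNT: the number of plane sets of `c A B` whose cone contains `x` is odd. -/
theorem count {cross : α × β → α × β → Prop}
    {c : Finset α → Finset β → Finset (α × β) → ZMod 2} (hs : Supp cross c) (ho : One c)
    (hr : ∀ A B, A.Nonempty → B.Nonempty → 3 ≤ A.card + B.card →
      ∀ ρ, bd (c A B) ρ = rhs c A B ρ) (n : ℕ) :
    ∀ (A : Finset α) (B : Finset β), A.Nonempty → B.Nonempty → A.card + B.card = n + 1 →
    ∀ x : α ⊕ β → ℝ, Pos A B x → Bal A B x → GenP A B x →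
    ∑ τ : Finset (α × β), c A B τ * door vec n x τ = 1 := by
  induction n with
  | zero =>
    intro A B hA hB hn
    have h1 := hA.card_pos
    have h2 := hB.card_pos
    omega
  | succ n ih =>
    intro A B hA hB hn x hp hb hg
    have hA1 := hA.card_pos
    have hB1 := hB.card_pos
    by_cases hone : A.card = 1 ∨ B.card = 1
    · -- one side has one element
      have h1 : ∀ τ : Finset (α × β), c A B τ * door vec (n + 1) x τ =
          if τ = A ×ˢ B then door vec (n + 1) x (A ×ˢ B) else 0 := by
        intro τ
        rw [ho A B hA hB hone]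
        by_cases h2 : τ = A ×ˢ B
        · rw [if_pos h2, if_pos h2, one_mul, h2]
        · rw [if_neg h2, if_neg h2, zero_mul]
      rw [Finset.sum_congr rfl fun τ _ => h1 τ, Finset.sum_ite_eq' Finset.univ (A ×ˢ B),
        if_pos (Finset.mem_univ _)]
      have hcone : InCone vec (A ×ˢ B) x := by
        obtain ⟨hb1, hb2, hb3⟩ := hb
        rcases hone with h | h
        · obtain ⟨u, rfl⟩ := Finset.card_eq_one.1 h
          rw [Finset.sum_singleton] at hb3
          refine ⟨fun e => x (Sum.inr e.2), fun e he => (hp.2 _ (Finset.mem_product.1 he).2).le, ?_⟩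
          rw [Finset.sum_product, Finset.sum_singleton]
          funext v
          rw [Finset.sum_apply]
          rcases v with a | b
          · show ∑ b ∈ B, x (Sum.inr b) * (if a = u then 1 else 0) = x (Sum.inl a)
            rw [← Finset.sum_mul, ← hb3]
            by_cases h7 : a = u
            · rw [if_pos h7, h7, mul_one]
            · rw [if_neg h7, mul_zero, hb1 a (by simpa using h7)]
          · show ∑ b' ∈ B, x (Sum.inr b') * (if b = b' then 1 else 0) = x (Sum.inr b)
            by_cases h7 : b ∈ B
            · rw [Finset.sum_eq_single b]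
              · rw [if_pos rfl, mul_one]
              · intro b' _ hne
                rw [if_neg fun h => hne h.symm, mul_zero]
              · exact fun h => absurd h7 h
            · rw [hb2 b h7]
              refine Finset.sum_eq_zero fun b' hb' => ?_
              rw [if_neg, mul_zero]
              rintro rfl
              exact h7 hb'
        · obtain ⟨u, rfl⟩ := Finset.card_eq_one.1 h
          rw [Finset.sum_singleton] at hb3
          refine ⟨fun e => x (Sum.inl e.1), fun e he => (hp.1 _ (Finset.mem_product.1 he).1).le, ?_⟩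
          rw [Finset.sum_product]
          simp only [Finset.sum_singleton]
          funext v
          rw [Finset.sum_apply]
          rcases v with a | b
          · show ∑ a' ∈ A, x (Sum.inl a') * (if a = a' then 1 else 0) = x (Sum.inl a)
            by_cases h7 : a ∈ A
            · rw [Finset.sum_eq_single a]
              · rw [if_pos rfl, mul_one]
              · intro b' _ hne
                rw [if_neg fun h => hne h.symm, mul_zero]
              · exact fun h => absurd h7 h
            · rw [hb1 a h7]
              refine Finset.sum_eq_zero fun b' hb' => ?_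
              rw [if_neg, mul_zero]
              rintro rfl
              exact h7 hb'
          · show ∑ a ∈ A, x (Sum.inl a) * (if b = u then 1 else 0) = x (Sum.inr b)
            rw [← Finset.sum_mul, hb3]
            by_cases h7 : b = u
            · rw [if_pos h7, h7, mul_one]
            · rw [if_neg h7, mul_zero, hb2 b (by simpa using h7)]
      have hcc : (A ×ˢ B).card = n + 1 := by
        rw [Finset.card_product]
        rcases hone with h | h
        · rw [h, one_mul]
          omega
        · rw [h, mul_one]
          omega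
      unfold door
      rw [if_pos ⟨hcc, hcone⟩]
    · -- both sides have at least two elements
      have hA2 : 2 ≤ A.card := by omega
      have hB2 : 2 ≤ B.card := by omega
      obtain ⟨a0, ha0⟩ := hA
      obtain ⟨b0, hb0⟩ := hB
      have hxne := ne_of_gen hb hg ha0 hb0 hA2 hB2
      have hxa := hp.1 a0 ha0
      have hxb := hp.2 b0 hb0
      have hAc := Finset.card_erase_add_one ha0
      have hBc := Finset.card_erase_add_one hb0
      have hpair : ∑ τ : Finset (α × β), c A B τ * door vec (n + 1) x τ =
          ∑ ρ : Finset (α × β), Bf (n + 1) x (a0, b0) ρ * bd (c A B) ρ := by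
        rw [pairing]
        refine Finset.sum_congr rfl fun τ _ => ?_
        by_cases hc0 : c A B τ = 0
        · rw [hc0, zero_mul, zero_mul]
        · obtain ⟨_, _, h3, _, h5⟩ := hs _ _ _ hc0
          rw [doorsB hg (Finset.mem_product.2 ⟨ha0, hb0⟩) h3 (by omega) (by omega)]
      rw [hpair]
      have hexp : ∀ ρ : Finset (α × β), Bf (n + 1) x (a0, b0) ρ * bd (c A B) ρ =
          ∑ a ∈ A, Bf (n + 1) x (a0, b0) ρ * c (A.erase a) B ρ +
            ∑ b ∈ B, Bf (n + 1) x (a0, b0) ρ * c A (B.erase b) ρ := by
        intro ρ
        rw [hr A B ⟨a0, ha0⟩ ⟨b0, hb0⟩ (by omega), rhs, mul_add, Finset.mul_sum, Finset.mul_sum]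
      rw [Finset.sum_congr rfl fun ρ _ => hexp ρ, Finset.sum_add_distrib, Finset.sum_comm,
        Finset.sum_comm (s := (Finset.univ : Finset (Finset (α × β)))) (t := B)]
      -- terms on the left side
      have hL0 : ∀ a ∈ A, a ≠ a0 →
          ∑ ρ : Finset (α × β), Bf (n + 1) x (a0, b0) ρ * c (A.erase a) B ρ = 0 := by
        intro a ha hne
        refine Finset.sum_eq_zero fun ρ _ => ?_
        by_cases hc0 : c (A.erase a) B ρ = 0
        · rw [hc0, mul_zero]
        · obtain ⟨_, _, h3, _, _⟩ := hs _ _ _ hc0
          have h4 : Bf (n + 1) x (a0, b0) ρ = 0 := by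
            unfold Bf
            split_ifs with h5
            · rfl
            · refine door_zero (not_cone_left (A := A.erase a) (B := B) ?_ (Finset.notMem_erase a A)
                (hp.1 a ha).ne')
              rw [Finset.insert_subset_iff]
              exact ⟨Finset.mem_product.2 ⟨Finset.mem_erase.2 ⟨fun h => hne h.symm, ha0⟩, hb0⟩, h3⟩
          rw [h4, zero_mul]
      have hR0 : ∀ b ∈ B, b ≠ b0 →
          ∑ ρ : Finset (α × β), Bf (n + 1) x (a0, b0) ρ * c A (B.erase b) ρ = 0 := by
        intro b hb' hne
        refine Finset.sum_eq_zero fun ρ _ => ?_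
        by_cases hc0 : c A (B.erase b) ρ = 0
        · rw [hc0, mul_zero]
        · obtain ⟨_, _, h3, _, _⟩ := hs _ _ _ hc0
          have h4 : Bf (n + 1) x (a0, b0) ρ = 0 := by
            unfold Bf
            split_ifs with h5
            · rfl
            · refine door_zero (not_cone_right (A := A) (B := B.erase b) ?_
                (Finset.notMem_erase b B) (hp.2 b hb').ne')
              rw [Finset.insert_subset_iff]
              exact ⟨Finset.mem_product.2 ⟨ha0, Finset.mem_erase.2 ⟨fun h => hne h.symm, hb0⟩⟩, h3⟩
          rw [h4, zero_mul]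
      have hL1 : ∑ ρ : Finset (α × β), Bf (n + 1) x (a0, b0) ρ * c (A.erase a0) B ρ =
          if x (Sum.inl a0) < x (Sum.inr b0) then 1 else 0 := by
        have h1 : ∀ ρ : Finset (α × β), Bf (n + 1) x (a0, b0) ρ * c (A.erase a0) B ρ =
            c (A.erase a0) B ρ * door vec n (x - x (Sum.inl a0) • vec (a0, b0)) ρ := by
          intro ρ
          by_cases hc0 : c (A.erase a0) B ρ = 0
          · rw [hc0, mul_zero, zero_mul]
          · obtain ⟨_, _, h3, _, _⟩ := hs _ _ _ hc0
            have hn0 : (a0, b0) ∉ ρ := fun h =>
              Finset.notMem_erase a0 A (Finset.mem_product.1 (h3 h)).1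
            unfold Bf
            rw [if_neg hn0, door_left h3 hxa.le, mul_comm]
        rw [Finset.sum_congr rfl fun ρ _ => h1 ρ]
        have hval2 : ∀ b', (x - x (Sum.inl a0) • vec (a0, b0)) (Sum.inr b') =
            x (Sum.inr b') - x (Sum.inl a0) * if b' = b0 then 1 else 0 := fun b' => rfl
        by_cases hlt : x (Sum.inl a0) < x (Sum.inr b0)
        · rw [if_pos hlt]
          refine ih (A.erase a0) B (Finset.card_pos.1 (by omega)) ⟨b0, hb0⟩ (by omega) _ ?_
            (bal_left hb ha0 hb0) (gen_left hg ha0 hb0)
          refine ⟨fun a ha => ?_, fun b hb' => ?_⟩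
          · have h5 := Finset.mem_erase.1 ha
            show 0 < x (Sum.inl a) - x (Sum.inl a0) * (if a = a0 then 1 else 0)
            rw [if_neg h5.1, mul_zero, sub_zero]
            exact hp.1 a h5.2
          · rw [hval2]
            by_cases h5 : b = b0
            · rw [if_pos h5, h5, mul_one]
              linarith
            · rw [if_neg h5, mul_zero, sub_zero]
              exact hp.2 b hb'
        · rw [if_neg hlt]
          refine Finset.sum_eq_zero fun ρ _ => ?_
          rw [door_zero, mul_zero]
          intro h5
          have h6 := cone_nonneg h5 (Sum.inr b0)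
          rw [hval2, if_pos rfl, mul_one] at h6
          exact hxne (le_antisymm (by linarith) (not_lt.1 hlt))
      have hR1 : ∑ ρ : Finset (α × β), Bf (n + 1) x (a0, b0) ρ * c A (B.erase b0) ρ =
          if x (Sum.inr b0) < x (Sum.inl a0) then 1 else 0 := by
        have h1 : ∀ ρ : Finset (α × β), Bf (n + 1) x (a0, b0) ρ * c A (B.erase b0) ρ =
            c A (B.erase b0) ρ * door vec n (x - x (Sum.inr b0) • vec (a0, b0)) ρ := by
          intro ρ
          by_cases hc0 : c A (B.erase b0) ρ = 0
          · rw [hc0, mul_zero, zero_mul]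
          · obtain ⟨_, _, h3, _, _⟩ := hs _ _ _ hc0
            have hn0 : (a0, b0) ∉ ρ := fun h =>
              Finset.notMem_erase b0 B (Finset.mem_product.1 (h3 h)).2
            unfold Bf
            rw [if_neg hn0, door_right h3 hxb.le, mul_comm]
        rw [Finset.sum_congr rfl fun ρ _ => h1 ρ]
        have hval : ∀ a', (x - x (Sum.inr b0) • vec (a0, b0)) (Sum.inl a') =
            x (Sum.inl a') - x (Sum.inr b0) * if a' = a0 then 1 else 0 := fun a' => rfl
        by_cases hlt : x (Sum.inr b0) < x (Sum.inl a0)
        · rw [if_pos hlt]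
          refine ih A (B.erase b0) ⟨a0, ha0⟩ (Finset.card_pos.1 (by omega)) (by omega) _ ?_
            (bal_right hb ha0 hb0) (gen_right hg ha0 hb0)
          refine ⟨fun a ha => ?_, fun b hb' => ?_⟩
          · rw [hval]
            by_cases h5 : a = a0
            · rw [if_pos h5, h5, mul_one]
              linarith
            · rw [if_neg h5, mul_zero, sub_zero]
              exact hp.1 a ha
          · have h5 := Finset.mem_erase.1 hb'
            show 0 < x (Sum.inr b) - x (Sum.inr b0) * (if b = b0 then 1 else 0)
            rw [if_neg h5.1, mul_zero, sub_zero]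
            exact hp.2 b h5.2
        · rw [if_neg hlt]
          refine Finset.sum_eq_zero fun ρ _ => ?_
          rw [door_zero, mul_zero]
          intro h5
          have h6 := cone_nonneg h5 (Sum.inl a0)
          rw [hval, if_pos rfl, mul_one] at h6
          exact hxne (le_antisymm (not_lt.1 hlt) (by linarith))
      rw [Finset.sum_eq_single a0 (fun a ha hne => hL0 a ha hne) (fun h => absurd ha0 h),
        Finset.sum_eq_single b0 (fun b hb' hne => hR0 b hb' hne) (fun h => absurd hb0 h), hL1, hR1]
      rcases lt_or_gt_of_ne hxne with hlt | hgt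
      · rw [if_pos hlt, if_neg (not_lt.2 hlt.le), add_zero]
      · rw [if_neg (not_lt.2 hgt.le), if_pos hgt, zero_add]

end H24B
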