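import Pool.Agent.Lib.H24B.B4
import Pool.Agent.Lib.H98P.GE

/-!
# H24B, chunk B5: the perfect matching

If the complex of plane subsets of `A ×ˢ B` is acyclic mod 2 for all nonempty `A`, `B` and
`|α| = |β|`, then there is a plane perfect matching.
-/

set_option autoImplicit false

namespace H24B

open Finset H98P

variable {α β : Type*} [Fintype α] [Fintype β] [DecidableEq α] [DecidableEq β]

/-- The difference of the sums of the two sides. -/
noncomputable def dif : (α ⊕ β → ℝ) →ₗ[ℝ] ℝ :=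
  (∑ a : α, LinearMap.proj (Sum.inl a)) - ∑ b : β, LinearMap.proj (Sum.inr b)

omit [DecidableEq α] [DecidableEq β] in
theorem dif_apply (x : α ⊕ β → ℝ) :
    dif x = ∑ a : α, x (Sum.inl a) - ∑ b : β, x (Sum.inr b) := by
  unfold dif
  rw [LinearMap.sub_apply, LinearMap.sum_apply, LinearMap.sum_apply]
  rfl

theorem dif_vec (e : α × β) : dif (vec e) = 0 := by
  rw [dif_apply]
  simp only [vec_inl, vec_inr]
  rw [Finset.sum_ite_eq' Finset.univ e.1, Finset.sum_ite_eq' Finset.univ e.2,
    if_pos (Finset.mem_univ _), if_pos (Finset.mem_univ _), sub_self]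

/-- Balanced vectors near `1` which are generic. -/
theorem exists_x [Nonempty α] (h : Fintype.card α = Fintype.card β) :
    ∃ x : α ⊕ β → ℝ, (∀ v, |x v - 1| < 1 / (2 * Fintype.card α + 1)) ∧
      Bal (univ : Finset α) (univ : Finset β) x ∧ GenP (univ : Finset α) (univ : Finset β) x := by
  classical
  obtain ⟨N, hN⟩ : ∃ N : Submodule ℝ (α ⊕ β → ℝ), N = LinearMap.ker dif := ⟨_, rfl⟩
  have hmem : ∀ y : α ⊕ β → ℝ, y ∈ N ↔ dif y = 0 := by
    intro y
    rw [hN, LinearMap.mem_ker]
  have hfr : Module.finrank ℝ N + 1 = Fintype.card α + Fintype.card β := by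
    have h1 := LinearMap.finrank_range_add_finrank_ker (dif (α := α) (β := β))
    rw [Module.finrank_fintype_fun_eq_card, Fintype.card_sum, ← hN] at h1
    have h2 : LinearMap.range (dif (α := α) (β := β)) = ⊤ := by
      rw [LinearMap.range_eq_top]
      intro r
      obtain ⟨a0⟩ := (inferInstance : Nonempty α)
      refine ⟨Sum.elim (fun a => if a = a0 then r else 0) (fun _ => 0), ?_⟩
      rw [dif_apply]
      simp
    rw [h2, finrank_top, Module.finrank_self] at h1
    omega
  obtain ⟨col, hcol⟩ : ∃ col : α × β → N, ∀ e, (col e : α ⊕ β → ℝ) = vec e :=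
    ⟨fun e => ⟨vec e, (hmem _).2 (dif_vec e)⟩, fun e => rfl⟩
  have hε0 : (0 : ℝ) < 1 / (2 * Fintype.card α + 1) := by positivity
  have hU : IsOpen {b : N | ∀ v, |(b : α ⊕ β → ℝ) v - 1| < 1 / (2 * Fintype.card α + 1)} := by
    rw [Set.ofPred_forall]
    refine isOpen_iInter_of_finite fun v => ?_
    exact isOpen_lt (continuous_abs.comp
      (((continuous_apply v).comp continuous_subtype_val).sub continuous_const)) continuous_const
  have hne : {b : N | ∀ v, |(b : α ⊕ β → ℝ) v - 1| < 1 / (2 * (Fintype.card α : ℝ) + 1)}.Nonempty := by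
    refine ⟨⟨fun _ => 1, (hmem _).2 ?_⟩, fun v => ?_⟩
    · rw [dif_apply]
      simp [h]
    · show |(1 : ℝ) - 1| < 1 / (2 * (Fintype.card α : ℝ) + 1)
      rw [sub_self, abs_zero]
      exact hε0
  obtain ⟨b, hb, hgen⟩ := exists_gen col _ hU hne
  refine ⟨b, hb, ⟨fun a ha => absurd (Finset.mem_univ a) ha, fun b hb => absurd (Finset.mem_univ b) hb,
    ?_⟩, ?_⟩
  · have h1 := (hmem _).1 b.2
    rw [dif_apply] at h1
    linarith
  · intro σ _ hc w hw
    refine hgen σ ?_ w (Subtype.ext ?_)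
    · rw [Finset.card_univ, Finset.card_univ] at hc
      omega
    · rw [← hw, AddSubmonoidClass.coe_finsetSum]
      refine Finset.sum_congr rfl fun e _ => ?_
      rw [← hcol e]
      rfl

/-- HALL. -/
theorem hallB (h : Fintype.card α = Fintype.card β) (P : Finset (α × β)) (w : α × β → ℝ)
    (hw : ∀ e ∈ P, 0 ≤ w e) (x : α ⊕ β → ℝ)
    (hx : ∀ v, |x v - 1| < 1 / (2 * Fintype.card α + 1)) (hs : ∑ e ∈ P, w e • vec e = x) :
    ∃ f : α → β, Function.Injective f ∧ ∀ a, (a, f a) ∈ P := by
  classical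
  obtain ⟨t, ht⟩ : ∃ t : α → Finset β, t = fun a => univ.filter fun b => (a, b) ∈ P := ⟨_, rfl⟩
  obtain ⟨ε, hε⟩ : ∃ ε : ℝ, ε = 1 / (2 * Fintype.card α + 1) := ⟨_, rfl⟩
  rw [← hε] at hx
  have hkey : ∀ T : Finset α, T.card ≤ (T.biUnion t).card := by
    intro T
    obtain ⟨N, hN⟩ : ∃ N : Finset β, N = T.biUnion t := ⟨_, rfl⟩
    rw [← hN]
    have hle : ∑ a ∈ T, x (Sum.inl a) ≤ ∑ b ∈ N, x (Sum.inr b) := by
      rw [← hs]
      simp only [comb_apply]
      rw [Finset.sum_comm, Finset.sum_comm (s := N)]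
      refine Finset.sum_le_sum fun e he => ?_
      rw [← Finset.mul_sum, ← Finset.mul_sum]
      refine mul_le_mul_of_nonneg_left ?_ (hw e he)
      simp only [vec_inl, vec_inr]
      rw [Finset.sum_ite_eq' T e.1, Finset.sum_ite_eq' N e.2]
      by_cases h1 : e.1 ∈ T
      · rw [if_pos h1, if_pos]
        rw [hN, Finset.mem_biUnion]
        refine ⟨e.1, h1, ?_⟩
        rw [ht]
        exact Finset.mem_filter.2 ⟨Finset.mem_univ _, he⟩
      · rw [if_neg h1]
        split_ifs <;> norm_num
    have h1 : (T.card : ℝ) * (1 - ε) ≤ ∑ a ∈ T, x (Sum.inl a) := by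
      rw [← nsmul_eq_mul]
      refine Finset.card_nsmul_le_sum _ _ _ fun v _ => ?_
      have := (abs_lt.1 (hx (Sum.inl v))).1
      linarith
    have h2 : ∑ b ∈ N, x (Sum.inr b) ≤ (N.card : ℝ) * (1 + ε) := by
      rw [← nsmul_eq_mul]
      refine Finset.sum_le_card_nsmul _ _ _ fun v _ => ?_
      have := (abs_lt.1 (hx (Sum.inr v))).2
      linarith
    have hTn : (T.card : ℝ) ≤ Fintype.card α := by exact_mod_cast Finset.card_le_univ T
    have hNn : (N.card : ℝ) ≤ Fintype.card α := by
      rw [h]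
      exact_mod_cast Finset.card_le_univ N
    have hn0 : (0 : ℝ) ≤ Fintype.card α := Nat.cast_nonneg _
    have hε0 : 0 < ε := by
      rw [hε]
      positivity
    have hεn : ε * (2 * Fintype.card α) < 1 := by
      rw [hε, one_div, inv_mul_lt_iff₀ (by positivity)]
      linarith
    have h3 : (T.card : ℝ) ≤ N.card + ε * (2 * Fintype.card α) := by
      have h4 : ε * (T.card + N.card) ≤ ε * (2 * Fintype.card α) :=
        mul_le_mul_of_nonneg_left (by linarith) hε0.le
      have h5 : (T.card : ℝ) * (1 - ε) ≤ (N.card : ℝ) * (1 + ε) := h1.trans (hle.trans h2)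
      nlinarith [h4, h5]
    have h6 : (T.card : ℝ) < N.card + 1 := by linarith
    have h7 : T.card < N.card + 1 := by exact_mod_cast h6
    exact Nat.lt_succ_iff.1 h7
  obtain ⟨f, hf1, hf2⟩ := (Finset.all_card_le_biUnion_card_iff_exists_injective t).1 hkey
  refine ⟨f, hf1, fun v => ?_⟩
  have := hf2 v
  rw [ht] at this
  exact (Finset.mem_filter.1 this).2

/-- MAIN THEOREM (degree half of the bipartite case): if the complexes of plane subsets of
`A ×ˢ B`, `A`, `B` nonempty, are acyclic mod 2, every two sides of equal size are joined by a plane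
perfect matching. -/
theorem perfect {cross : α × β → α × β → Prop}
    (hA : ∀ a b b', ¬ cross (a, b) (a, b')) (hB : ∀ a a' b, ¬ cross (a, b) (a', b))
    (hac : Acyc cross) (h : Fintype.card α = Fintype.card β) :
    ∃ f : α ≃ β, ∀ a a', ¬ cross (a, f a) (a', f a') := by
  classical
  rcases isEmpty_or_nonempty α with hα | hα
  · exact ⟨Fintype.equivOfCardEq h, fun a => (hα.false a).elim⟩
  obtain ⟨c, hs, ho, hr⟩ := chains hA hB hac
  obtain ⟨x, hx, hbal, hgen⟩ := exists_x h
  have hn : 0 < Fintype.card α := Fintype.card_pos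
  have hn' : (0 : ℝ) < Fintype.card α := by exact_mod_cast hn
  have hβ : Nonempty β := Fintype.card_pos_iff.1 (h ▸ hn)
  have hpos : ∀ v, 0 < x v := by
    intro v
    have h1 := (abs_lt.1 (hx v)).1
    have h2 : (1 : ℝ) / (2 * Fintype.card α + 1) ≤ 1 := by
      rw [div_le_one (by positivity)]
      linarith
    linarith
  have hodd := count hs ho hr (2 * Fintype.card α - 1) univ univ Finset.univ_nonempty
    Finset.univ_nonempty (by rw [Finset.card_univ, Finset.card_univ]; omega) x
    ⟨fun a _ => hpos _, fun b _ => hpos _⟩ hbal hgen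
  have hex : ∃ σ, c univ univ σ * door vec (2 * Fintype.card α - 1) x σ ≠ 0 := by
    by_contra hcon
    push Not at hcon
    rw [Finset.sum_eq_zero fun σ _ => hcon σ] at hodd
    exact zero_ne_one hodd
  obtain ⟨σ, hσ⟩ := hex
  have hd : door vec (2 * Fintype.card α - 1) x σ ≠ 0 := right_ne_zero_of_mul hσ
  have hc : c univ univ σ ≠ 0 := left_ne_zero_of_mul hσ
  obtain ⟨w, hw0, hw⟩ : InCone vec σ x := by
    by_contra hcon
    exact hd (door_zero hcon)
  obtain ⟨_, _, _, hpl, _⟩ := hs _ _ _ hc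
  obtain ⟨f, hf1, hf2⟩ := hallB h σ w hw0 x hx hw
  have hbij : Function.Bijective f := (Fintype.bijective_iff_injective_and_card f).2 ⟨hf1, h⟩
  exact ⟨Equiv.ofBijective f hbij, fun a a' => hpl _ (hf2 a) _ (hf2 a')⟩

end H24B
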